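import Mathlib
import Pool.Agent.W_MP_165cab_nt.Defs
import Pool.Agent.W_MP_165cab_nt.Core

set_option autoImplicit false

namespace Pool.Agent.Results.MP_165cab_nt.LowerConstants

open Pool.Agent.W_MP_165cab_nt

/-- The three equalities for the lower constants `λ_5`, `λ_7`, `λ_11`. -/
theorem result :
    lam 5 = (3 / 2 : ℝ) ^ (1 - theta 5) ∧
    lam 7 = (3 / 2 : ℝ) ^ (1 - theta 7) ∧
    lam 11 = (59 / 44 : ℝ) * (22 / 31 : ℝ) ^ theta 11 :=
  ⟨lam_five, lam_seven, lam_eleven⟩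

end Pool.Agent.Results.MP_165cab_nt.LowerConstants
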